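import Pool.Agent.H27.PT.Inj
import Pool.Agent.H41.ME.Trn

/-!
# D-type latin squares of order `2 ^ k`, `k ≥ 6` (helper27, after helper90 and helper41)
-/

set_option autoImplicit false

namespace Pool.Agent.H27.PT

theorem fin (hT : Pool.Agent.H41.ME.TrnStmt) (k : ℕ) (hk : 6 ≤ k) :
    ∃ L : Fin (2 ^ k) → Equiv.Perm (Fin (2 ^ k)),
    (∀ j, Function.Injective (fun i => L i j)) ∧
    (∀ i, (∃! x, L i x = x) ∧ ∀ x y, L i x ≠ x → L i y ≠ y → ∃ n : ℕ, ((L i) ^ n) x = y) ∧
    (¬ ∃ (G : Type) (_ : Group G) (r c s : Fin (2 ^ k) ≃ G), ∀ i j, s (L i j) = r i * c j) ∧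
    ∀ j, Function.Injective (fun i => (L i * L i) j) := by
  classical
  have : Fact (Nat.Prime 2) := ⟨Nat.prime_two⟩
  have : Fintype (GaloisField 2 k) := Fintype.ofFinite _
  have hcard : Fintype.card (GaloisField 2 k) = 2 ^ k := by
    rw [← Nat.card_eq_fintype_card]
    exact GaloisField.card 2 k (by omega)
  have two : (2 : GaloisField 2 k) = 0 := by
    have := CharP.cast_eq_zero (GaloisField 2 k) 2
    exact_mod_cast this
  have h64 : 64 ≤ Fintype.card (GaloisField 2 k) := by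
    rw [hcard]
    calc 64 = 2 ^ 6 := by norm_num
      _ ≤ 2 ^ k := Nat.pow_le_pow_right (by norm_num) hk
  obtain ⟨u, hu⟩ := IsCyclic.exists_monoid_generator (α := (GaloisField 2 k)ˣ)
  have hgen : ∀ y : GaloisField 2 k, y ≠ 0 → ∃ n : ℕ, y = (u : GaloisField 2 k) ^ n := by
    intro y hy
    obtain ⟨n, hn⟩ := hu (Units.mk0 y hy)
    refine ⟨n, ?_⟩
    have h1 := congrArg (fun z : (GaloisField 2 k)ˣ => (z : GaloisField 2 k)) hn
    simp only [Units.val_pow_eq_pow_val, Units.val_mk0] at h1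
    exact h1.symm
  have hu1 : (u : GaloisField 2 k) ≠ 1 := by
    intro h
    obtain ⟨x, hx⟩ := avoid ({0, 1} : Finset (GaloisField 2 k))
      ((Finset.card_le_two).trans_lt (by omega))
    simp only [Finset.mem_insert, Finset.mem_singleton, not_or] at hx
    obtain ⟨n, hn⟩ := hgen x hx.1
    rw [h, one_pow] at hn
    exact hx.2 hn
  obtain ⟨g, g0, g1, g2, g3, g4, g5⟩ := pre (GaloisField 2 k) two h64 u u.ne_zero hu1 hgen
  exact hT k (GaloisField 2 k) two hcard g g0 g1 g2 g3 g4 g5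

end Pool.Agent.H27.PT
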