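import Pool.Agent.H27.PT.Ngr

/-!
# The orthomorphism `θ ∘ (a ·) ∘ θ` over a field with at least `64` elements and characteristic `2` (helper27, after helper90)
-/

set_option autoImplicit false

namespace Pool.Agent.H27.PT

open Finset

/-- sums of some of `a`, `a ^ 2`, `a ^ 3` -/
def V {F : Type} [Field F] (a x : F) : Prop :=
  ∃ p q r : F, (p = 0 ∨ p = 1) ∧ (q = 0 ∨ q = 1) ∧ (r = 0 ∨ r = 1) ∧ x = p * a + q * a ^ 2 + r * a ^ 3

open Classical in
/-- the involution -/
noncomputable def th {F : Type} [Field F] (a x : F) : F := x + if V a x then a ^ 3 + a else 0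

/-- the permutation -/
noncomputable def ff {F : Type} [Field F] (a x : F) : F := th a (a * th a x)

section
variable {F : Type} [Field F]

theorem dbl (two : (2 : F) = 0) (x : F) : x + x = 0 := by
  have : x + x = 2 * x := by ring
  rw [this, two, zero_mul]

theorem bit_add (two : (2 : F) = 0) {p q : F} (hp : p = 0 ∨ p = 1) (hq : q = 0 ∨ q = 1) : p + q = 0 ∨ p + q = 1 := by
  rcases hp with rfl | rfl <;> rcases hq with rfl | rfl
  · left; simp
  · right; simp
  · right; simp
  · left; exact dbl two 1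

theorem V_add (two : (2 : F) = 0) {a x y : F} (hx : V a x) (hy : V a y) : V a (x + y) := by
  obtain ⟨p, q, r, hp, hq, hr, rfl⟩ := hx
  obtain ⟨p', q', r', hp', hq', hr', rfl⟩ := hy
  exact ⟨p + p', q + q', r + r', bit_add two hp hp', bit_add two hq hq', bit_add two hr hr', by ring⟩

theorem V_iff (two : (2 : F) = 0) {a v : F} (hv : V a v) (x : F) : V a (x + v) ↔ V a x := by
  refine ⟨fun h => ?_, fun h => V_add two h hv⟩
  have := V_add two h hv
  rwa [add_assoc, dbl two, add_zero] at this

theorem V_zero (a : F) : V a 0 := ⟨0, 0, 0, Or.inl rfl, Or.inl rfl, Or.inl rfl, by ring⟩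
theorem V_one (a : F) : V a a := ⟨1, 0, 0, Or.inr rfl, Or.inl rfl, Or.inl rfl, by ring⟩
theorem V_three (a : F) : V a (a ^ 3) := ⟨0, 0, 1, Or.inl rfl, Or.inl rfl, Or.inr rfl, by ring⟩
theorem V_c (a : F) : V a (a ^ 3 + a) := ⟨1, 0, 1, Or.inr rfl, Or.inl rfl, Or.inr rfl, by ring⟩
theorem V_21 (a : F) : V a (a ^ 2 + a) := ⟨1, 1, 0, Or.inr rfl, Or.inr rfl, Or.inl rfl, by ring⟩
theorem V_32 (a : F) : V a (a ^ 3 + a ^ 2) := ⟨0, 1, 1, Or.inl rfl, Or.inr rfl, Or.inr rfl, by ring⟩

theorem th_th (two : (2 : F) = 0) (a x : F) : th a (th a x) = x := by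
  classical
  by_cases h : V a x
  · have h1 : th a x = x + (a ^ 3 + a) := by rw [th, if_pos h]
    have h2 : V a (x + (a ^ 3 + a)) := V_add two h (V_c a)
    rw [h1, th, if_pos h2, add_assoc, dbl two, add_zero]
  · have h1 : th a x = x := by rw [th, if_neg h, add_zero]
    rw [h1, h1]

theorem th_inj (two : (2 : F) = 0) {a x y : F} (h : th a x = th a y) : x = y := by
  rw [← th_th two a x, h, th_th two]

theorem ff_inj (two : (2 : F) = 0) {a x y : F} (ha : a ≠ 0) (h : ff a x = ff a y) : x = y :=
  th_inj two (mul_left_cancel₀ ha (th_inj two h))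

open Classical in
theorem two_inj (two : (2 : F) = 0) (P Q : F → Prop) (m v : F) (hm : m ≠ 0) (hP : ∀ z, P (z + v) ↔ P z)
    (hQ : ∀ z, Q (z + v) ↔ Q z) (z w : F)
    (h : m * z + (if P z then m * v else 0) + (if Q z then m * v else 0) =
      m * w + (if P w then m * v else 0) + (if Q w then m * v else 0)) : z = w := by
  have hε : ∀ z, ((if P z then m * v else 0) + (if Q z then m * v else 0) : F) = 0 ∨
      ((if P z then m * v else 0) + (if Q z then m * v else 0) : F) = m * v := by
    intro z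
    by_cases h1 : P z <;> by_cases h2 : Q z
    · left; rw [if_pos h1, if_pos h2, dbl two]
    · right; rw [if_pos h1, if_neg h2, add_zero]
    · right; rw [if_neg h1, if_pos h2, zero_add]
    · left; rw [if_neg h1, if_neg h2, add_zero]
  by_cases hzw : w = z + v
  · have h1 : (if P w then m * v else 0 : F) = if P z then m * v else 0 := by
      rw [hzw]
      simp only [hP]
    have h2 : (if Q w then m * v else 0 : F) = if Q z then m * v else 0 := by
      rw [hzw]
      simp only [hQ]
    rw [h1, h2] at h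
    have h3 := add_right_cancel (add_right_cancel h)
    exact mul_left_cancel₀ hm h3
  · rw [add_assoc, add_assoc] at h
    rcases hε z with h1 | h1 <;> rcases hε w with h2 | h2 <;> rw [h1, h2] at h
    · rw [add_zero, add_zero] at h
      exact mul_left_cancel₀ hm h
    · exfalso
      apply hzw
      rw [add_zero, ← mul_add] at h
      have h3 := mul_left_cancel₀ hm h
      rw [h3, add_assoc, dbl two, add_zero]
    · exfalso
      apply hzw
      rw [add_zero, ← mul_add] at h
      exact (mul_left_cancel₀ hm h).symm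
    · exact mul_left_cancel₀ hm (add_right_cancel h)

theorem add_one_ne (two : (2 : F) = 0) {a : F} (ha1 : a ≠ 1) : a + 1 ≠ 0 := by
  intro h
  apply ha1
  have h1 : a + 1 + 1 = 0 + 1 := by rw [h]
  rwa [add_assoc, dbl two, add_zero, zero_add] at h1

theorem inj1 (two : (2 : F) = 0) {a : F} (ha1 : a ≠ 1) {x y : F} (h : ff a x + x = ff a y + y) : x = y := by
  classical
  obtain ⟨z, hz⟩ : ∃ z, z = th a x := ⟨_, rfl⟩
  obtain ⟨w, hw⟩ : ∃ w, w = th a y := ⟨_, rfl⟩
  have hx : x = th a z := by rw [hz, th_th two]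
  have hy : y = th a w := by rw [hw, th_th two]
  have e : ∀ z, th a (a * z) + th a z = (a + 1) * z + (if V a (a * z) then (a + 1) * (a ^ 2 + a) else 0) +
      (if V a z then (a + 1) * (a ^ 2 + a) else 0) := by
    intro z
    have hc : (a + 1) * (a ^ 2 + a) = a ^ 3 + a := by
      linear_combination a ^ 2 * two
    rw [hc, th, th]
    ring
  have h1 : th a (a * z) + th a z = th a (a * w) + th a w := by
    have h2 : ff a x = th a (a * z) := by rw [ff, hz]
    have h3 : ff a y = th a (a * w) := by rw [ff, hw]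
    rw [← h2, ← h3, ← hx, ← hy]
    exact h
  rw [e, e] at h1
  have h4 := two_inj two (fun z => V a (a * z)) (fun z => V a z) (a + 1) (a ^ 2 + a) (add_one_ne two ha1)
    (fun z => by
      have : a * (z + (a ^ 2 + a)) = a * z + (a ^ 3 + a ^ 2) := by ring
      rw [this]
      exact V_iff two (V_32 a) _) (fun z => V_iff two (V_21 a) z) z w h1
  rw [hx, hy, h4]

theorem inj2 (two : (2 : F) = 0) {a : F} (ha1 : a ≠ 1) {x y : F} (h : ff a (ff a x) + x = ff a (ff a y) + y) : x = y := by
  classical
  obtain ⟨z, hz⟩ : ∃ z, z = th a x := ⟨_, rfl⟩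
  obtain ⟨w, hw⟩ : ∃ w, w = th a y := ⟨_, rfl⟩
  have hx : x = th a z := by rw [hz, th_th two]
  have hy : y = th a w := by rw [hw, th_th two]
  have e : ∀ z, th a (a * (a * z)) + th a z = (a + 1) ^ 2 * z + (if V a (a * (a * z)) then (a + 1) ^ 2 * a else 0) +
      (if V a z then (a + 1) ^ 2 * a else 0) := by
    intro z
    have hc : (a + 1) ^ 2 * a = a ^ 3 + a := by
      linear_combination a ^ 2 * two
    rw [hc, th, th]
    linear_combination -(a * z * two)
  have h1 : th a (a * (a * z)) + th a z = th a (a * (a * w)) + th a w := by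
    have h2 : ff a (ff a x) = th a (a * (a * z)) := by rw [ff, ff, th_th two, hz]
    have h3 : ff a (ff a y) = th a (a * (a * w)) := by rw [ff, ff, th_th two, hw]
    rw [← h2, ← h3, ← hx, ← hy]
    exact h
  rw [e, e] at h1
  have h4 := two_inj two (fun z => V a (a * (a * z))) (fun z => V a z) ((a + 1) ^ 2) a
    (pow_ne_zero 2 (add_one_ne two ha1))
    (fun z => by
      have : a * (a * (z + a)) = a * (a * z) + a ^ 3 := by ring
      rw [this]
      exact V_iff two (V_three a) _) (fun z => V_iff two (V_one a) z) z w h1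
  rw [hx, hy, h4]

theorem iter (two : (2 : F) = 0) (a x : F) (n : ℕ) : (ff a)^[n] x = th a (a ^ n * th a x) := by
  induction n with
  | zero => rw [Function.iterate_zero, id, pow_zero, one_mul, th_th two]
  | succ n ih => rw [Function.iterate_succ_apply', ih, ff, th_th two, pow_succ, ← mul_assoc, mul_comm a]

end

theorem pre (F : Type) [Field F] [Fintype F] (two : (2 : F) = 0) (hF : 64 ≤ Fintype.card F) (a : F) (ha : a ≠ 0)
    (ha1 : a ≠ 1) (hgen : ∀ y : F, y ≠ 0 → ∃ n : ℕ, y = a ^ n) :
    ∃ g : F → F, g 0 = 0 ∧ (∀ x y, g x = g y → x = y) ∧ (∀ x y, g x + x = g y + y → x = y) ∧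
      (∀ x y, g (g x) + x = g (g y) + y → x = y) ∧ (∃ b : F, ∀ x : F, x ≠ 0 → ∃ n : ℕ, g^[n] x = b) ∧
      ¬ ∃ (G : Type) (_ : Group G) (r c s : F ≃ G), ∀ i j : F, s (i + g (j - i)) = r i * c j := by
  classical
  obtain ⟨c, hc⟩ : ∃ c : F, c = a ^ 3 + a := ⟨_, rfl⟩
  have hVc : V a c := by rw [hc]; exact V_c a
  have hthc : th a c = 0 := by
    rw [th, if_pos hVc, ← hc, dbl two]
  have hffc : ff a c = c := by
    rw [ff, hthc, mul_zero, th, if_pos (V_zero a), zero_add, hc]
  have hcan : ∀ x : F, x + c + c = x := fun x => by rw [add_assoc, dbl two, add_zero]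
  obtain ⟨g, hg⟩ : ∃ g : F → F, ∀ x, g x = ff a (x + c) + c := ⟨fun x => ff a (x + c) + c, fun x => rfl⟩
  have hg0 : g 0 = 0 := by rw [hg, zero_add, hffc, dbl two]
  refine ⟨g, hg0, ?_, ?_, ?_, ?_, ?_⟩
  · intro x y h
    rw [hg, hg] at h
    exact add_right_cancel (ff_inj two ha (add_right_cancel h))
  · intro x y h
    rw [hg, hg] at h
    have h1 : ff a (x + c) + (x + c) = ff a (y + c) + (y + c) := by
      linear_combination h
    exact add_right_cancel (inj1 two ha1 h1)
  · intro x y h
    rw [hg, hg x, hg (g y), hg y, hcan, hcan] at h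
    have h1 : ff a (ff a (x + c)) + (x + c) = ff a (ff a (y + c)) + (y + c) := by
      linear_combination h
    exact add_right_cancel (inj2 two ha1 h1)
  · have hit : ∀ (n : ℕ) (x : F), g^[n] x = (ff a)^[n] (x + c) + c := by
      intro n x
      induction n with
      | zero => rw [Function.iterate_zero, Function.iterate_zero, id, id, hcan]
      | succ n ih => rw [Function.iterate_succ_apply', Function.iterate_succ_apply', ih, hg, hcan]
    refine ⟨th a 1 + c, fun x hx => ?_⟩
    have hne : th a (x + c) ≠ 0 := by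
      intro h
      rw [← hthc] at h
      have h1 := th_inj two h
      apply hx
      rw [← hcan x, h1, dbl two]
    obtain ⟨n, hn⟩ := hgen (th a (x + c))⁻¹ (inv_ne_zero hne)
    refine ⟨n, ?_⟩
    rw [hit, iter two, ← hn, inv_mul_cancel₀ hne]
  · -- not group based
    obtain ⟨W, hW⟩ : ∃ W : Finset F, W = ((({0, 1} : Finset F) ×ˢ ({0, 1} : Finset F)) ×ˢ ({0, 1} : Finset F)).image
      (fun t => t.1.1 * a + t.1.2 * a ^ 2 + t.2 * a ^ 3) := ⟨_, rfl⟩
    have hWm : ∀ x, V a x → x ∈ W := by
      rintro x ⟨p, q, r, hp, hq, hr, rfl⟩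
      rw [hW]
      refine Finset.mem_image.2 ⟨((p, q), r), ?_, rfl⟩
      simp only [Finset.mem_product, Finset.mem_insert, Finset.mem_singleton]
      exact ⟨⟨hp, hq⟩, hr⟩
    have hWc : W.card ≤ 8 := by
      rw [hW]
      refine Finset.card_image_le.trans ?_
      rw [Finset.card_product, Finset.card_product]
      have h2 : ({0, 1} : Finset F).card ≤ 2 := Finset.card_le_two
      calc _ ≤ 2 * 2 * 2 := Nat.mul_le_mul (Nat.mul_le_mul h2 h2) h2
        _ = 8 := by norm_num
    obtain ⟨W2, hW2⟩ : ∃ W2 : Finset F, W2 = W.image (fun y => a⁻¹ * y + c) := ⟨_, rfl⟩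
    have hW2c : W2.card ≤ 8 := by
      rw [hW2]
      exact Finset.card_image_le.trans hWc
    have hS : (W ∪ W2).card ≤ 15 := by
      have h1 := Finset.card_union_add_card_inter W W2
      have h2 : 0 < (W ∩ W2).card := by
        refine Finset.card_pos.2 ⟨c, Finset.mem_inter.2 ⟨hWm c hVc, ?_⟩⟩
        rw [hW2]
        exact Finset.mem_image.2 ⟨0, hWm 0 (V_zero a), by rw [mul_zero, zero_add]⟩
      omega
    refine ngr F two a (a * c + c) ha g (W ∪ W2) hS hF (fun x hx => ?_) ⟨0, ?_⟩
    · rw [Finset.mem_union, not_or] at hx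
      have h1 : ¬ V a (x + c) := fun h => hx.1 (hWm x ((V_iff two hVc x).1 h))
      have h2 : ¬ V a (a * (x + c)) := by
        intro h
        apply hx.2
        rw [hW2]
        refine Finset.mem_image.2 ⟨a * (x + c), hWm _ h, ?_⟩
        rw [← mul_assoc, inv_mul_cancel₀ ha, one_mul, hcan]
      rw [hg, ff, th, th, if_neg h1, add_zero, if_neg h2]
      ring
    · rw [hg0, mul_zero, zero_add]
      have h1 : a * c + c = (a + 1) ^ 3 * a := by
        rw [hc]
        linear_combination -(a ^ 3 + a ^ 2) * two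
      rw [h1]
      exact (mul_ne_zero (pow_ne_zero 3 (add_one_ne two ha1)) ha).symm

end Pool.Agent.H27.PT
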