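import Mathlib

/-!
# A latin square `i + g (j - i)` over a field of characteristic `2`, `g` affine outside a small set, is not group based (helper27)
-/

set_option autoImplicit false

namespace Pool.Agent.H27.PT

open Finset

theorem avoid {F : Type} [Fintype F] [DecidableEq F] (A : Finset F) (h : A.card < Fintype.card F) : ∃ x, x ∉ A := by
  by_contra hcon
  push Not at hcon
  have h1 : A = Finset.univ := Finset.eq_univ_iff_forall.2 hcon
  rw [h1, Finset.card_univ] at h
  exact lt_irrefl _ h

theorem ngr (F : Type) [Field F] [Fintype F] (two : (2 : F) = 0) (a b : F) (ha : a ≠ 0) (g : F → F)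
    (S : Finset F) (hS : S.card ≤ 15) (hF : 64 ≤ Fintype.card F) (hg : ∀ x, x ∉ S → g x = a * x + b)
    (hne : ∃ x, g x ≠ a * x + b) :
    ¬ ∃ (G : Type) (_ : Group G) (r c s : F ≃ G), ∀ i j : F, s (i + g (j - i)) = r i * c j := by
  classical
  obtain ⟨x0, hx0⟩ := hne
  have hadd : ∀ x : F, x + x = 0 := fun x => by
    have : x + x = 2 * x := by ring
    rw [this, two, zero_mul]
  have hcan : ∀ x y : F, x + y + y = x := fun x y => by rw [add_assoc, hadd, add_zero]
  -- translates of `S`
  obtain ⟨T, hT⟩ : ∃ T : F → Finset F, T = fun u => S.image fun y => y + x0 + u := ⟨_, rfl⟩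
  have hTc : ∀ u, (T u).card ≤ 15 := fun u => by
    rw [hT]
    exact Finset.card_image_le.trans hS
  have hTm : ∀ u v, v ∉ T u → x0 + u + v ∉ S := by
    intro u v hv hS'
    apply hv
    rw [hT]
    refine Finset.mem_image.2 ⟨x0 + u + v, hS', ?_⟩
    have : x0 + u + v + x0 + u = v + (x0 + x0) + (u + u) := by ring
    rw [this, hadd, hadd, add_zero, add_zero]
  obtain ⟨u, hu⟩ := avoid (T 0) ((hTc 0).trans_lt (by omega))
  obtain ⟨v, hv⟩ := avoid (T 0 ∪ T u) (((Finset.card_union_le _ _).trans (add_le_add (hTc 0) (hTc u))).trans_lt (by omega))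
  obtain ⟨h, hh⟩ := avoid ((T 0 ∪ T u) ∪ (T v ∪ T (u + v)))
    (((Finset.card_union_le _ _).trans (add_le_add ((Finset.card_union_le _ _).trans (add_le_add (hTc 0) (hTc u)))
      ((Finset.card_union_le _ _).trans (add_le_add (hTc v) (hTc (u + v)))))).trans_lt (by omega))
  simp only [Finset.mem_union, not_or] at hv hh
  obtain ⟨hv0, hvu⟩ := hv
  obtain ⟨⟨h0, hhu⟩, hhv, hhuv⟩ := hh
  have n1 : x0 + u ∉ S := by simpa using hTm 0 u hu
  have n2 : x0 + v ∉ S := by simpa using hTm 0 v hv0
  have n3 : x0 + u + v ∉ S := hTm u v hvu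
  have n4 : x0 + h ∉ S := by simpa using hTm 0 h h0
  have n5 : x0 + u + h ∉ S := hTm u h hhu
  have n6 : x0 + v + h ∉ S := hTm v h hhv
  have n7 : x0 + (u + v) + h ∉ S := hTm (u + v) h hhuv
  rintro ⟨G, _, r, c, s, hL⟩
  have hL' : ∀ i j : F, s (i + g (j + i)) = r i * c j := by
    intro i j
    have : j - i = j + i := by
      rw [sub_eq_iff_eq_add, hcan]
    rw [← this]
    exact hL i j
  -- rows `u, 0`, columns `x0 + v, x0`; shifted rows by `a h`, columns by `h + a h`
  obtain ⟨d, hd⟩ : ∃ d : F, d = a * h := ⟨_, rfl⟩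
  have key : ∀ i j : F, j + i ∉ S → j + i + h ∉ S →
      i + g (j + i) = (i + d) + g ((j + (h + d)) + (i + d)) := by
    intro i j h1 h2
    have e1 : (j + (h + d)) + (i + d) = j + i + h := by
      have : (j + (h + d)) + (i + d) = j + i + h + (d + d) := by ring
      rw [this, hadd, add_zero]
    rw [e1, hg _ h1, hg _ h2, hd]
    have : (i + a * h) + (a * (j + i + h) + b) = i + (a * (j + i) + b) + (a * h + a * h) := by ring
    rw [this, hadd, add_zero]
  have k11 := key u (x0 + v) (by rw [show x0 + v + u = x0 + u + v by ring]; exact n3)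
    (by rw [show x0 + v + u + h = x0 + (u + v) + h by ring]; exact n7)
  have k12 := key u x0 n1 n5
  have k21 := key 0 (x0 + v) (by rw [add_zero]; exact n2) (by rw [add_zero]; exact n6)
  have g11 := hL' u (x0 + v)
  have g12 := hL' u x0
  have g21 := hL' 0 (x0 + v)
  have g22 := hL' 0 x0
  have q11 := hL' (u + d) (x0 + v + (h + d))
  have q12 := hL' (u + d) (x0 + (h + d))
  have q21 := hL' (0 + d) (x0 + v + (h + d))
  have q22 := hL' (0 + d) (x0 + (h + d))
  rw [← k11, g11] at q11
  rw [← k12, g12] at q12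
  rw [← k21, g21] at q21
  have hgrp : r 0 * c x0 = r (0 + d) * c (x0 + (h + d)) := by
    have e1 : r 0 * c x0 = (r 0 * c (x0 + v)) * (r u * c (x0 + v))⁻¹ * (r u * c x0) := by group
    have e2 : r (0 + d) * c (x0 + (h + d)) = (r (0 + d) * c (x0 + v + (h + d))) *
        (r (u + d) * c (x0 + v + (h + d)))⁻¹ * (r (u + d) * c (x0 + (h + d))) := by group
    rw [e1, e2, q21, q11, q12]
  rw [← g22, ← q22] at hgrp
  have hs := s.injective hgrp
  have e1 : (x0 + (h + d)) + (0 + d) = x0 + h := by
    have : (x0 + (h + d)) + (0 + d) = x0 + h + (d + d) := by ring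
    rw [this, hadd, add_zero]
  rw [e1, hg _ n4, add_zero, zero_add, zero_add, hd] at hs
  apply hx0
  rw [hs]
  have : a * h + (a * (x0 + h) + b) = a * x0 + b + (a * h + a * h) := by ring
  rw [this, hadd, add_zero]

end Pool.Agent.H27.PT
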